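import Pool.Agent.H570R2.ZamAsymp

/-!
The zero-information Arthur-Merlin complexity of `INDEX` is subpolynomial: the conjecture
`ZAM(INDEX_n) = Θ(n)` is false.

`AMProtocol`, `IsZAM` and `ZAM` are defined in `Pool.Agent.H570R2.ZamDefs`.
-/

namespace Pool.Agent.Results.MP_63af43_lc.ConjectureFails

open Pool.Agent.H570R2 Filter

/-- `INDEX_n : {0,1}^n × [n] → {0,1}`, `INDEX_n(x, y) = x_y`. -/
def INDEX (n : ℕ) (x : Fin n → Bool) (y : Fin n) : Bool := x y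

theorem index_le (n : ℕ) (hn : 4 ≤ n) :
    ZAM (INDEX n) ≤
      ((⌊(2 : ℝ) ^ (54 * Real.sqrt (Real.logb 2 n * Real.logb 2 (Real.logb 2 n)))⌋₊ : ℕ) : ℕ∞) :=
  ZAM_le_of_card_le (INDEX n) n hn (by simp)

theorem index_le_rpow (ε : ℝ) (hε : 0 < ε) :
    ∀ᶠ n : ℕ in atTop, ZAM (INDEX n) ≤ ((⌊(n : ℝ) ^ ε⌋₊ : ℕ) : ℕ∞) := by
  have hl : Tendsto (fun n : ℕ => Real.logb 2 (n : ℝ)) atTop atTop :=
    (Real.tendsto_logb_atTop (by norm_num)).comp tendsto_natCast_atTop_atTop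
  have h1 := hl.eventually (eventually_sqrt_le 54 ε (by norm_num) hε)
  filter_upwards [h1, eventually_ge_atTop 4] with n hn hn4
  refine (index_le n hn4).trans ?_
  rw [Nat.cast_le]
  apply Nat.floor_le_floor
  have hn0 : (0 : ℝ) < n := by exact_mod_cast (by omega : 0 < n)
  calc (2 : ℝ) ^ (54 * Real.sqrt (Real.logb 2 n * Real.logb 2 (Real.logb 2 n)))
      ≤ (2 : ℝ) ^ (ε * Real.logb 2 n) := Real.rpow_le_rpow_of_exponent_le (by norm_num) hn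
    _ = (n : ℝ) ^ ε := by
      rw [mul_comm, Real.rpow_mul (by norm_num : (0 : ℝ) ≤ 2),
        Real.rpow_logb (by norm_num) (by norm_num) hn0]

/-- **The conjecture `ZAM(INDEX_n) = Θ(n)` is false.** For all `n ≥ 4`,
`ZAM(INDEX_n) ≤ 2 ^ (54 √(log₂ n · log₂ log₂ n))`; hence `ZAM(INDEX_n) ≤ n ^ ε` for every `ε > 0` and
all large `n`, and for no `c > 0` is `ZAM(INDEX_n) ≥ c n` for all large (or even infinitely many)
`n`. -/
theorem result :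
    (∀ n : ℕ, 4 ≤ n → ZAM (INDEX n) ≤
      ((⌊(2 : ℝ) ^ (54 * Real.sqrt (Real.logb 2 n * Real.logb 2 (Real.logb 2 n)))⌋₊ : ℕ) : ℕ∞)) ∧
    (∀ ε : ℝ, 0 < ε → ∀ᶠ n : ℕ in atTop, ZAM (INDEX n) ≤ ((⌊(n : ℝ) ^ ε⌋₊ : ℕ) : ℕ∞)) ∧
    (∀ c : ℝ, 0 < c → ∀ᶠ n : ℕ in atTop,
      ((ZAM (INDEX n) : ℕ∞) : ENNReal) < ENNReal.ofReal (c * n)) := by
  refine ⟨index_le, index_le_rpow, ?_⟩
  intro c hc
  have h1 := index_le_rpow (1 / 2) (by norm_num)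
  have h2 : ∀ᶠ n : ℕ in atTop, (1 / c) ^ 2 + 1 ≤ (n : ℝ) :=
    tendsto_natCast_atTop_atTop.eventually (eventually_ge_atTop _)
  filter_upwards [h1, h2, eventually_ge_atTop 1] with n hn hn2 hn1
  have hn0 : (0 : ℝ) < n := by exact_mod_cast (by omega : 0 < n)
  have h3 : ((ZAM (INDEX n) : ℕ∞) : ENNReal) ≤ ((⌊(n : ℝ) ^ (1 / 2 : ℝ)⌋₊ : ℕ) : ENNReal) := by
    have := ENat.toENNReal_le.2 hn
    simpa using this
  refine lt_of_le_of_lt h3 ?_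
  have h4 : ((⌊(n : ℝ) ^ (1 / 2 : ℝ)⌋₊ : ℕ) : ENNReal) ≤ ENNReal.ofReal ((n : ℝ) ^ (1 / 2 : ℝ)) := by
    rw [← ENNReal.ofReal_natCast]
    exact ENNReal.ofReal_le_ofReal (Nat.floor_le (by positivity))
  refine lt_of_le_of_lt h4 ?_
  rw [ENNReal.ofReal_lt_ofReal_iff (by positivity)]
  rw [← Real.sqrt_eq_rpow]
  have h5 : 1 / c < Real.sqrt n := by
    apply Real.lt_sqrt_of_sq_lt
    linarith
  have h6 : 1 < c * Real.sqrt n := by
    rw [div_lt_iff₀ hc] at h5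
    linarith
  have h7 : Real.sqrt n * Real.sqrt n = n := Real.mul_self_sqrt hn0.le
  have h8 : 0 < Real.sqrt n := Real.sqrt_pos.2 hn0
  nlinarith

end Pool.Agent.Results.MP_63af43_lc.ConjectureFails
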